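import Pool.Agent.DbarN.Main

set_option autoImplicit false

/-!
# The infimum of the spectrum of the `∂̄`-Neumann Laplacian need not be an eigenvalue
-/

namespace Pool.Agent.Results.MP_2ab45c_an.GroundStateNotAttained

open Pool.Agent.DbarN

/-- There is a bounded smooth pseudoconvex domain `Ω` of `ℂ²` such that the spectrum of the
`∂̄`-Neumann Laplacian on `(0,1)`-forms is contained in `[1/4, ∞)` and contains `1/4`, while
`1/4` is not an eigenvalue. -/
theorem result : ∃ Ω : Set (ℂ × ℂ), IsSmoothPsc Ω ∧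
    (∀ t ∈ spec Ω, t.im = 0 ∧ 1 / 4 ≤ t.re) ∧ (1 / 4 : ℂ) ∈ spec Ω ∧
    ∀ u : L2F Ω, Box Ω u ((1 / 4 : ℂ) • u) → u = 0 :=
  main_theorem

end Pool.Agent.Results.MP_2ab45c_an.GroundStateNotAttained
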